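import Pool.Agent.Helper20.QP.St1

set_option autoImplicit false

open Filter Topology Set Metric MeasureTheory
open scoped ComplexConjugate ENNReal

namespace Pool.Agent.Helper10.QP

open Pool.Agent.Helper35.PM (hs Mat SL IsDiscrete)
open Pool.Agent.Helper20.QD Pool.Agent.Helper20.QP

variable {Γ : Type} [Group Γ]

private theorem sl_mul (A B : SL) (i j : Fin 2) :
    ((A * B : SL) : Mat) i j =
      (A : Mat) i 0 * (B : Mat) 0 j + (A : Mat) i 1 * (B : Mat) 1 j := by
  rw [Matrix.SpecialLinearGroup.coe_mul, Matrix.mul_apply, Fin.sum_univ_two]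

private theorem su_det (A : SL) (h : IsSU A) :
    (A : Mat) 0 0 * conj ((A : Mat) 0 0) - (A : Mat) 0 1 * conj ((A : Mat) 0 1) = 1 := by
  have h1 := A.det_coe
  rw [Matrix.det_fin_two] at h1
  rw [← h.1, ← h.2]
  exact h1

private theorem alg1 (a b p q : ℂ) (hb : b ≠ 0) (h1 : a * p + b * conj q = p * a + q * conj b)
    (h2 : a * q + b * conj p = p * b + q * conj a) :
    ∃ s : ℝ, q = s * b ∧ p.im = s * a.im := by
  have h3 : b * conj q = q * conj b := by linear_combination h1
  have hb' : conj b ≠ 0 := by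
    rw [Ne, map_eq_zero]
    exact hb
  have h4 : conj (q / b) = q / b := by
    rw [map_div₀, div_eq_div_iff hb' hb]
    linear_combination h3
  have h5 : (((q / b).re : ℝ) : ℂ) = q / b := Complex.conj_eq_iff_re.1 h4
  refine ⟨(q / b).re, ?_, ?_⟩
  · rw [h5, div_mul_cancel₀ _ hb]
  · have h6 : q = ((q / b).re : ℂ) * b := by rw [h5, div_mul_cancel₀ _ hb]
    set s : ℝ := (q / b).re with hs
    have h7 : b * (p - conj p) = s * b * (a - conj a) := by
      rw [← h6]
      linear_combination -h2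
    rw [Complex.sub_conj, Complex.sub_conj] at h7
    have h8 : b * Complex.I * (((p.im : ℝ) : ℂ) - (s : ℂ) * ((a.im : ℝ) : ℂ)) = 0 := by
      have h9 : b * (((2 * p.im : ℝ) : ℂ) * Complex.I) - s * b * (((2 * a.im : ℝ) : ℂ) * Complex.I)
          = 0 := by
        rw [h7, sub_self]
      push_cast at h9
      linear_combination h9 / 2
    have h10 := (mul_eq_zero.1 h8).resolve_left (mul_ne_zero hb Complex.I_ne_zero)
    have h11 : ((p.im : ℝ) : ℂ) = (s : ℂ) * ((a.im : ℝ) : ℂ) := sub_eq_zero.1 h10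
    exact_mod_cast h11

private theorem re_aux (x y : ℝ) : ((x : ℂ) * y * Complex.I).re = 0 := by simp

/-- coordinates of the elements commuting with `A` -/
private def Rp (b : ℂ) (y : ℝ) (B : SL) (r s : ℝ) : Prop :=
  IsSU B ∧ (B : Mat) 0 0 = r + s * y * Complex.I ∧ (B : Mat) 0 1 = s * b

private theorem rp_mul {b : ℂ} {y w : ℝ} (hw : b * conj b = w ^ 2 + y ^ 2)
    {B B' : SL} {r s r' s' : ℝ} (h : Rp b y B r s) (h' : Rp b y B' r' s')
    (hsu : IsSU (B * B')) :
    Rp b y (B * B') (r * r' + w ^ 2 * (s * s')) (r * s' + s * r') := by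
  obtain ⟨u, h1, h2⟩ := h
  obtain ⟨u', h1', h2'⟩ := h'
  refine ⟨hsu, ?_, ?_⟩
  · rw [sl_mul, u'.2, h1, h2, h1', h2']
    simp only [map_mul, Complex.conj_ofReal]
    push_cast
    linear_combination (s * s' : ℂ) * hw + (s * s' * y ^ 2 : ℂ) * Complex.I_sq
  · rw [sl_mul, u'.1, h1, h2, h1', h2']
    simp only [map_mul, map_add, Complex.conj_ofReal, Complex.conj_I]
    push_cast
    ring

private theorem rp_det {b : ℂ} {y w : ℝ} (hw : b * conj b = w ^ 2 + y ^ 2)
    {B : SL} {r s : ℝ} (h : Rp b y B r s) : (r + w * s) * (r - w * s) = 1 := by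
  obtain ⟨u, h1, h2⟩ := h
  have h3 := su_det B u
  rw [h1, h2] at h3
  simp only [map_mul, map_add, Complex.conj_ofReal, Complex.conj_I] at h3
  have h4 : ((r : ℂ) + w * s) * (r - w * s) = 1 := by
    linear_combination h3 + (s ^ 2 : ℂ) * hw + (s ^ 2 * y ^ 2 : ℂ) * Complex.I_sq
  exact_mod_cast h4

private theorem rp_ex {A : SL} (hA : IsSU A) {B : SL} (hB : IsSU B)
    (hb : (A : Mat) 0 1 ≠ 0) (hc : A * B = B * A) :
    ∃ s : ℝ, Rp ((A : Mat) 0 1) ((A : Mat) 0 0).im B ((B : Mat) 0 0).re s := by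
  have e1 : ((A * B : SL) : Mat) 0 0 = ((B * A : SL) : Mat) 0 0 := by rw [hc]
  have e2 : ((A * B : SL) : Mat) 0 1 = ((B * A : SL) : Mat) 0 1 := by rw [hc]
  rw [sl_mul, sl_mul, hA.2, hB.2] at e1
  rw [sl_mul, sl_mul, hA.1, hB.1] at e2
  obtain ⟨s, h1, h2⟩ := alg1 _ _ _ _ hb e1 e2
  refine ⟨s, hB, ?_, h1⟩
  conv_lhs => rw [← Complex.re_add_im ((B : Mat) 0 0), h2]
  push_cast
  ring

/-- the logarithm of the eigenvalue as a homomorphism on the centraliser -/
private theorem ex_t (hSUB : StSUB) {σ : Γ →* SL} (hF : Fuch σ)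
    (h1 : ∀ γ, ((σ γ : Mat) = 1 ∨ (σ γ : Mat) = -1) → γ = 1) {ε : ℝ} (hε : 0 < ε)
    (hTh : Thick σ ε) (α : Γ) (hα : α ≠ 1) :
    ∃ t : Γ → ℝ, (∀ β β', Commute β α → Commute β' α → t (β * β') = t β + t β') ∧
      (∀ β, Commute β α → t β = 0 → β = 1) ∧
      (∀ β, Commute β α → |((σ β : Mat) 0 0).re| = Real.cosh (t β)) ∧
      {β | Commute β α ∧ |t β| ≤ 1}.Finite := by
  obtain ⟨-, hmul, -, -, -, -⟩ := hSUB
  set a : ℂ := (σ α : Mat) 0 0 with ha
  set b : ℂ := (σ α : Mat) 0 1 with hbd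
  have hsu := hF.su α
  have hre : 1 < a.re ^ 2 := by
    have h2 := hTh α hα
    unfold sh at h2
    rw [Matrix.trace_fin_two, hsu.1, ← ha, Complex.add_conj] at h2
    rw [Complex.ofReal_re] at h2
    nlinarith
  obtain ⟨w, hw0, hw2⟩ : ∃ w : ℝ, 0 < w ∧ w ^ 2 = a.re ^ 2 - 1 :=
    ⟨Real.sqrt (a.re ^ 2 - 1), Real.sqrt_pos.2 (by linarith), Real.sq_sqrt (by linarith)⟩
  have hw : b * conj b = w ^ 2 + a.im ^ 2 := by
    have h2 := su_det (σ α) hsu
    rw [← ha, ← hbd, Complex.mul_conj a, Complex.normSq_apply] at h2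
    have h3 : ((w : ℂ)) ^ 2 = (a.re : ℂ) ^ 2 - 1 := by exact_mod_cast hw2
    push_cast at h2
    linear_combination -h2 - h3
  have hb : b ≠ 0 := by
    intro h0
    rw [h0, zero_mul] at hw
    have h2 : (0 : ℝ) = w ^ 2 + a.im ^ 2 := by exact_mod_cast hw
    nlinarith [sq_nonneg a.im]
  -- coordinates
  let r : Γ → ℝ := fun β => ((σ β : Mat) 0 0).re
  let s : Γ → ℝ := fun β => ((σ β : Mat) 0 1 / b).re
  have hR : ∀ β, Commute β α → Rp b a.im (σ β) (r β) (s β) := by
    intro β hβ
    have hc : σ α * σ β = σ β * σ α := by rw [← map_mul, ← map_mul, hβ.eq]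
    obtain ⟨x, hx⟩ := rp_ex hsu (hF.su β) hb hc
    have hx2 : s β = x := by
      change ((σ β : Mat) 0 1 / b).re = x
      rw [hx.2.2, mul_div_assoc, ← hbd, div_self hb, mul_one, Complex.ofReal_re]
    rw [hx2]
    exact hx
  have hdet : ∀ β, Commute β α → (r β + w * s β) * (r β - w * s β) = 1 :=
    fun β hβ => rp_det hw (hR β hβ)
  have hne : ∀ β, Commute β α → r β + w * s β ≠ 0 := fun β hβ h0 => by
    have h2 := hdet β hβ
    rw [h0, zero_mul] at h2
    exact zero_ne_one h2
  have hmulr : ∀ β β', Commute β α → Commute β' α →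
      r (β * β') + w * s (β * β') = (r β + w * s β) * (r β' + w * s β') := by
    intro β β' hβ hβ'
    have h2 := hR (β * β') (hβ.mul_left hβ')
    have h3 := rp_mul hw (hR β hβ) (hR β' hβ') (hmul _ _ (hF.su β) (hF.su β'))
    rw [← map_mul] at h3
    have e1 : r (β * β') = r β * r β' + w ^ 2 * (s β * s β') := by
      have h4 := h2.2.1.symm.trans h3.2.1
      have h5 := congrArg Complex.re h4
      rw [Complex.add_re, Complex.add_re, Complex.ofReal_re, Complex.ofReal_re, re_aux, re_aux,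
        add_zero, add_zero] at h5
      exact h5
    have e2 : s (β * β') = r β * s β' + s β * r β' := by
      have h4 := h2.2.2.symm.trans h3.2.2
      exact_mod_cast mul_right_cancel₀ hb h4
    rw [e1, e2]
    ring
  have hexp : ∀ β, Commute β α → |r β + w * s β| = Real.exp (Real.log (r β + w * s β)) ∧
      |r β - w * s β| = Real.exp (-Real.log (r β + w * s β)) := by
    intro β hβ
    have h2 : |r β + w * s β| = Real.exp (Real.log (r β + w * s β)) :=
      (Real.exp_log_eq_abs (hne β hβ)).symm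
    refine ⟨h2, ?_⟩
    rw [Real.exp_neg, ← h2]
    have h3 : |r β + w * s β| * |r β - w * s β| = 1 := by
      rw [← abs_mul, hdet β hβ, abs_one]
    exact eq_inv_of_mul_eq_one_right h3
  refine ⟨fun β => Real.log (r β + w * s β), ?_, ?_, ?_, ?_⟩
  · intro β β' hβ hβ'
    change Real.log (r (β * β') + w * s (β * β')) = _
    rw [hmulr β β' hβ hβ', Real.log_mul (hne β hβ) (hne β' hβ')]
  · intro β hβ h0
    change Real.log (r β + w * s β) = 0 at h0
    have h2 := hexp β hβ
    rw [h0, neg_zero, Real.exp_zero] at h2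
    have h3 := hdet β hβ
    have h4 : w * s β = 0 := by
      rcases abs_eq (zero_le_one' ℝ) |>.1 h2.1 with h | h
      · rw [h, one_mul] at h3
        linarith
      · rw [h] at h3
        linarith
    have h5 : s β = 0 := (mul_eq_zero.1 h4).resolve_left hw0.ne'
    have h6 := h2.1
    rw [h4, add_zero] at h6
    obtain ⟨u, h7, h8⟩ := hR β hβ
    rw [h5] at h7 h8
    simp only [Complex.ofReal_zero, zero_mul, add_zero] at h7 h8
    apply h1
    rcases abs_eq (zero_le_one' ℝ) |>.1 h6 with h | h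
    · left
      rw [h] at h7
      ext i j
      fin_cases i <;> fin_cases j
      · simpa using h7
      · simpa using h8
      · have := u.2
        rw [h8] at this
        simpa using this
      · have := u.1
        rw [h7] at this
        simpa using this
    · right
      rw [h] at h7
      ext i j
      fin_cases i <;> fin_cases j
      · simpa using h7
      · simpa using h8
      · have := u.2
        rw [h8] at this
        simpa using this
      · have := u.1
        rw [h7] at this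
        simpa using this
  · intro β hβ
    change |r β| = Real.cosh (Real.log (r β + w * s β))
    obtain ⟨h2, h3⟩ := hexp β hβ
    rw [Real.cosh_eq, ← h2, ← h3]
    have h4 := hdet β hβ
    rcases lt_trichotomy (r β + w * s β) 0 with h5 | h5 | h5
    · have h6 : r β - w * s β < 0 := by
        by_contra hc
        push Not at hc
        have := mul_nonpos_of_nonpos_of_nonneg h5.le hc
        linarith
      rw [abs_of_neg h5, abs_of_neg h6, abs_of_neg (by linarith)]
      ring
    · exact absurd h5 (hne β hβ)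
    · have h6 : 0 < r β - w * s β := by
        by_contra hc
        push Not at hc
        have := mul_nonpos_of_nonneg_of_nonpos h5.le hc
        linarith
      rw [abs_of_pos h5, abs_of_pos h6, abs_of_pos (by linarith)]
      ring
  · set E : ℝ := Real.exp 1 with hE
    refine (hF.discrete (2 * ((E + E / w * |a.im|) ^ 2 + (E / w * ‖b‖) ^ 2))).subset ?_
    rintro β ⟨hβ, ht⟩
    change |Real.log (r β + w * s β)| ≤ 1 at ht
    obtain ⟨h2, h3⟩ := hexp β hβ
    obtain ⟨ht1, ht2⟩ := abs_le.1 ht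
    have h4 : |r β + w * s β| ≤ E := by
      rw [h2]
      exact Real.exp_le_exp.2 ht2
    have h5 : |r β - w * s β| ≤ E := by
      rw [h3]
      exact Real.exp_le_exp.2 (by linarith)
    have hr : |r β| ≤ E := by
      rw [abs_le] at *
      constructor <;> linarith [h4.1, h4.2, h5.1, h5.2]
    have hss : |s β| ≤ E / w := by
      have h6 : |s β| * w = |w * s β| := by
        rw [abs_mul, abs_of_pos hw0, mul_comm]
      rw [le_div_iff₀ hw0, h6]
      rw [abs_le] at *
      constructor <;> linarith [h4.1, h4.2, h5.1, h5.2]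
    obtain ⟨u, h7, h8⟩ := hR β hβ
    have n1 : ‖(σ β : Mat) 0 0‖ ≤ E + E / w * |a.im| := by
      rw [h7]
      refine (norm_add_le _ _).trans ?_
      rw [norm_mul, norm_mul, Complex.norm_I, mul_one, Complex.norm_real, Complex.norm_real,
        Complex.norm_real, Real.norm_eq_abs, Real.norm_eq_abs, Real.norm_eq_abs]
      gcongr
    have n2 : ‖(σ β : Mat) 0 1‖ ≤ E / w * ‖b‖ := by
      rw [h8, norm_mul, Complex.norm_real, Real.norm_eq_abs]
      gcongr
    change hs (σ β : Mat) ≤ _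
    unfold Pool.Agent.Helper35.PM.hs
    rw [Fin.sum_univ_two, Fin.sum_univ_two, Fin.sum_univ_two, u.1, u.2, Complex.norm_conj,
      Complex.norm_conj]
    have n3 : ‖(σ β : Mat) 0 0‖ ^ 2 ≤ (E + E / w * |a.im|) ^ 2 := by gcongr
    have n4 : ‖(σ β : Mat) 0 1‖ ^ 2 ≤ (E / w * ‖b‖) ^ 2 := by gcongr
    linarith

private theorem pow_int (α : Γ) (t : Γ → ℝ)
    (ht : ∀ β β', Commute β α → Commute β' α → t (β * β') = t β + t β') :
    t 1 = 0 ∧ (∀ β, Commute β α → t β⁻¹ = - t β) ∧
      ∀ β, Commute β α → ∀ n : ℤ, t (β ^ n) = n * t β := by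
  have h1 : t 1 = 0 := by
    have := ht 1 1 (Commute.one_left _) (Commute.one_left _)
    rw [mul_one] at this
    linarith
  have hinv : ∀ β, Commute β α → t β⁻¹ = - t β := by
    intro β hβ
    have := ht β β⁻¹ hβ hβ.inv_left
    rw [mul_inv_cancel, h1] at this
    linarith
  have hnat : ∀ β, Commute β α → ∀ n : ℕ, t (β ^ n) = n * t β := by
    intro β hβ n
    induction n with
    | zero => simp [h1]
    | succ n ih =>
      rw [pow_succ, ht _ _ (hβ.pow_left n) hβ, ih]
      push_cast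
      ring
  refine ⟨h1, hinv, fun β hβ n => ?_⟩
  obtain ⟨k, rfl | rfl⟩ := n.eq_nat_or_neg
  · rw [zpow_natCast, hnat β hβ k]
    norm_cast
  · rw [zpow_neg, zpow_natCast, hinv _ (hβ.pow_left k), hnat β hβ k]
    push_cast
    ring

private theorem trans_comm {σ : Γ →* SL} (hF : Fuch σ)
    (h1 : ∀ γ, ((σ γ : Mat) = 1 ∨ (σ γ : Mat) = -1) → γ = 1) {ε : ℝ} (hε : 0 < ε)
    (hTh : Thick σ ε) (α β γ : Γ) (hα : α ≠ 1) (hb : Commute α β) (hc : Commute α γ) :
    Commute β γ := by
  set a : ℂ := (σ α : Mat) 0 0 with ha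
  set b : ℂ := (σ α : Mat) 0 1 with hbd
  have hsu := hF.su α
  have hre : 1 < a.re ^ 2 := by
    have h2 := hTh α hα
    unfold sh at h2
    rw [Matrix.trace_fin_two, hsu.1, ← ha, Complex.add_conj] at h2
    rw [Complex.ofReal_re] at h2
    nlinarith
  have hb0 : b ≠ 0 := by
    intro h0
    have h2 := su_det (σ α) hsu
    rw [← ha, ← hbd, Complex.mul_conj a, Complex.normSq_apply, h0, zero_mul, sub_zero] at h2
    have h3 : a.re * a.re + a.im * a.im = 1 := by exact_mod_cast h2
    nlinarith [sq_nonneg a.im]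
  have ex : ∀ δ, Commute α δ → ∃ r s : ℝ, Rp b a.im (σ δ) r s := by
    intro δ hδ
    have hc : σ α * σ δ = σ δ * σ α := by rw [← map_mul, ← map_mul, hδ.eq]
    obtain ⟨x, hx⟩ := rp_ex hsu (hF.su δ) hb0 hc
    exact ⟨_, x, hx⟩
  obtain ⟨r, s, u, p1, p2⟩ := ex β hb
  obtain ⟨r', s', u', q1, q2⟩ := ex γ hc
  have key : σ (β * γ) = σ (γ * β) := by
    rw [map_mul, map_mul]
    apply Matrix.SpecialLinearGroup.ext
    intro i j
    fin_cases i <;> fin_cases j
    · change ((σ β * σ γ : SL) : Mat) 0 0 = ((σ γ * σ β : SL) : Mat) 0 0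
      rw [sl_mul, sl_mul, u.2, u'.2, p1, p2, q1, q2]
      simp only [map_mul, Complex.conj_ofReal]
      ring
    · change ((σ β * σ γ : SL) : Mat) 0 1 = ((σ γ * σ β : SL) : Mat) 0 1
      rw [sl_mul, sl_mul, u.1, u'.1, p1, p2, q1, q2]
      simp only [map_mul, map_add, Complex.conj_ofReal, Complex.conj_I]
      ring
    · change ((σ β * σ γ : SL) : Mat) 1 0 = ((σ γ * σ β : SL) : Mat) 1 0
      rw [sl_mul, sl_mul, u.1, u'.1, u.2, u'.2, p1, p2, q1, q2]
      simp only [map_mul, map_add, Complex.conj_ofReal, Complex.conj_I]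
      ring
    · change ((σ β * σ γ : SL) : Mat) 1 1 = ((σ γ * σ β : SL) : Mat) 1 1
      rw [sl_mul, sl_mul, u.1, u'.1, u.2, u'.2, p1, p2, q1, q2]
      simp only [map_mul, map_add, Complex.conj_ofReal, Complex.conj_I]
      ring
  have h2 : β * γ * (γ * β)⁻¹ = 1 := by
    apply h1
    left
    rw [map_mul, map_inv, key, mul_inv_cancel]
    simp
  exact mul_inv_eq_one.1 h2

theorem hCEN (hSUB : StSUB) (hHY2 : StHY2) : StCEN := by
  intro Γ _ σ hF hT
  obtain ⟨h1, -, ε, hε, hTh⟩ := hHY2 Γ σ hF hT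
  have hz : ∀ (α : Γ) (n : ℤ), α ≠ 1 → α ^ n = 1 → n = 0 := by
    intro α n hα h
    obtain ⟨k, rfl | rfl⟩ := n.eq_nat_or_neg
    · by_contra h0
      rw [zpow_natCast] at h
      exact hα (hT α k (by omega) h)
    · by_contra h0
      rw [zpow_neg, zpow_natCast, inv_eq_one] at h
      exact hα (hT α k (by omega) h)
  have h3 : ∀ α β γ : Γ, α ≠ 1 → Commute α β → Commute α γ → Commute β γ :=
    fun α β γ hα hb hc => trans_comm hF h1 hε hTh α β γ hα hb hc
  have h4 : ∀ (α : Γ) (n m : ℤ), α ≠ 1 → α ^ n = α ^ m → n = m := by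
    intro α n m hα h
    have h5 : α ^ (n - m) = 1 := by rw [zpow_sub, h, mul_inv_cancel]
    have := hz α _ hα h5
    omega
  refine ⟨?_, ?_, h3, h4⟩
  · -- primitive roots
    intro α hα
    obtain ⟨t, t1, t2, -, t4⟩ := ex_t hSUB hF h1 hε hTh α hα
    obtain ⟨p1, p2, p3⟩ := pow_int α t t1
    let S : AddSubgroup ℝ :=
      { carrier := {x | ∃ β, Commute β α ∧ t β = x}
        add_mem' := by
          rintro x y ⟨β, hβ, rfl⟩ ⟨β', hβ', rfl⟩
          exact ⟨β * β', hβ.mul_left hβ', t1 β β' hβ hβ'⟩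
        zero_mem' := ⟨1, Commute.one_left _, p1⟩
        neg_mem' := by
          rintro x ⟨β, hβ, rfl⟩
          exact ⟨β⁻¹, hβ.inv_left, p2 β hβ⟩ }
    have hcyc : ∃ g, S = AddSubgroup.closure {g} := by
      rcases AddSubgroup.dense_or_cyclic S with hd | hc
      · exfalso
        have k1 : Ioo (0 : ℝ) 1 ⊆ closure (Ioo (0 : ℝ) 1 ∩ (S : Set ℝ)) :=
          hd.open_subset_closure_inter isOpen_Ioo
        have k2 : (Ioo (0 : ℝ) 1 ∩ (S : Set ℝ)).Finite := by
          refine (t4.image t).subset ?_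
          rintro x ⟨hx, β, hβ, rfl⟩
          exact ⟨β, ⟨hβ, abs_le.2 ⟨by linarith [hx.1], hx.2.le⟩⟩, rfl⟩
        rw [k2.isClosed.closure_eq] at k1
        exact Set.Ioo_infinite (zero_lt_one' ℝ) (k2.subset k1)
      · exact hc
    obtain ⟨g, hg⟩ := hcyc
    have hgS : g ∈ S := by
      rw [hg]
      exact AddSubgroup.subset_closure (mem_singleton g)
    obtain ⟨α0, hα0, hg0⟩ := hgS
    have hgen : ∀ β, Commute β α → ∃ n : ℤ, β = α0 ^ n := by
      intro β hβ
      have k1 : t β ∈ S := ⟨β, hβ, rfl⟩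
      rw [hg, AddSubgroup.mem_closure_singleton] at k1
      obtain ⟨n, hn⟩ := k1
      refine ⟨n, ?_⟩
      have k2 : t (β * (α0 ^ n)⁻¹) = 0 := by
        rw [t1 _ _ hβ (hα0.zpow_left n).inv_left, p2 _ (hα0.zpow_left n), p3 _ hα0, ← hn, hg0,
          zsmul_eq_mul]
        ring
      exact mul_inv_eq_one.1 (t2 _ (hβ.mul_left (hα0.zpow_left n).inv_left) k2)
    obtain ⟨n, hn⟩ := hgen α (Commute.refl α)
    have hα0' : α0 ≠ 1 := by
      rintro rfl
      rw [one_zpow] at hn
      exact hα hn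
    have hP : Prim α0 := by
      refine ⟨hα0', fun γ hγ => ?_⟩
      exact hgen γ (h3 α0 γ α hα0' hγ.symm hα0)
    have hn0 : n ≠ 0 := by
      rintro rfl
      rw [zpow_zero] at hn
      exact hα hn
    obtain ⟨k, rfl | rfl⟩ := n.eq_nat_or_neg
    · exact ⟨α0, k, hP, by omega, by rw [hn, zpow_natCast]⟩
    · refine ⟨α0⁻¹, k, ⟨inv_ne_one.2 hα0', fun γ hγ => ?_⟩, by omega, ?_⟩
      · obtain ⟨j, hj⟩ := hP.2 γ (Commute.inv_right_iff.1 hγ)
        exact ⟨-j, by rw [inv_zpow, zpow_neg, inv_inv]; exact hj⟩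
      · rw [hn, zpow_neg, zpow_natCast, inv_pow]
  · intro α γ n m hα hn h
    obtain ⟨t, t1, t2, t3, -⟩ := ex_t hSUB hF h1 hε hTh α hα
    obtain ⟨p1, p2, p3⟩ := pow_int α t t1
    have ca : ∀ k : ℤ, Commute (α ^ k) α := fun k => (Commute.refl α).zpow_left k
    have hre : ∀ k : ℤ, |((σ (α ^ k) : Mat) 0 0).re| = Real.cosh (k * t α) := fun k => by
      rw [t3 _ (ca k), p3 α (Commute.refl α)]
    have htr : ((σ (α ^ m) : Mat) 0 0).re = ((σ (α ^ n) : Mat) 0 0).re := by
      have k1 : (σ (α ^ m) : Mat).trace = (σ (α ^ n) : Mat).trace := by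
        rw [← h, map_mul, map_mul, map_inv]
        rw [Matrix.SpecialLinearGroup.coe_mul, Matrix.trace_mul_comm,
          ← Matrix.SpecialLinearGroup.coe_mul, ← mul_assoc, inv_mul_cancel, one_mul]
      rw [Matrix.trace_fin_two, Matrix.trace_fin_two, (hF.su _).1, (hF.su _).1, Complex.add_conj,
        Complex.add_conj] at k1
      have k2 : 2 * ((σ (α ^ m) : Mat) 0 0).re = 2 * ((σ (α ^ n) : Mat) 0 0).re := by
        exact_mod_cast k1
      linarith
    have hcosh : Real.cosh (m * t α) = Real.cosh (n * t α) := by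
      rw [← hre m, ← hre n, htr]
    have hta : t α ≠ 0 := fun h0 => hα (t2 α (Commute.refl α) h0)
    have habs : |(m : ℝ)| = |(n : ℝ)| := by
      have k1 : |(m : ℝ) * t α| = |(n : ℝ) * t α| :=
        le_antisymm (Real.cosh_le_cosh.1 hcosh.le) (Real.cosh_le_cosh.1 hcosh.ge)
      rw [abs_mul, abs_mul] at k1
      exact mul_right_cancel₀ (abs_ne_zero.2 hta) k1
    have hαn : α ^ n ≠ 1 := fun h0 => hn (hz α n hα h0)
    rcases abs_eq_abs.1 habs with h5 | h5
    · have h6 : m = n := by exact_mod_cast h5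
      rw [h6] at h
      have k1 : Commute (α ^ n) γ := by
        have : γ * α ^ n = α ^ n * γ := mul_inv_eq_iff_eq_mul.1 h
        exact this.symm
      exact (h3 (α ^ n) α γ hαn (ca n) k1).symm
    · exfalso
      have h6 : m = -n := by exact_mod_cast h5
      rw [h6] at h
      -- γ² commutes with α ^ n
      have k1 : γ * (α ^ n)⁻¹ * γ⁻¹ = α ^ n := by
        have := congrArg (fun x => x⁻¹) h
        simp only [mul_inv_rev, inv_inv, zpow_neg] at this
        rw [← mul_assoc] at this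
        exact this
      have k2 : Commute (γ * γ) (α ^ n) := by
        have k3 : γ * γ * α ^ n * (γ * γ)⁻¹ = α ^ n := by
          calc γ * γ * α ^ n * (γ * γ)⁻¹ = γ * (γ * α ^ n * γ⁻¹) * γ⁻¹ := by group
            _ = α ^ n := by rw [h, zpow_neg, k1]
        exact mul_inv_eq_iff_eq_mul.1 k3
      have k4 : Commute γ (α ^ n) := by
        by_cases hγ : γ * γ = 1
        · have : γ = 1 := hT γ 2 (by norm_num) (by rw [pow_two, hγ])
          rw [this]
          exact Commute.one_left _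
        · exact h3 (γ * γ) γ (α ^ n) hγ ((Commute.refl γ).mul_left (Commute.refl γ)) k2
      have k5 : α ^ n = α ^ (-n) := by
        rw [← h, k4.eq, mul_inv_cancel_right]
      have := h4 α n (-n) hα k5
      omega

end Pool.Agent.Helper10.QP
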