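import Pool.Agent.Helper20.QP.St3

set_option autoImplicit false

open Filter Topology Set Metric MeasureTheory
open scoped ComplexConjugate ENNReal

namespace Pool.Agent.Helper10.QP

open Pool.Agent.Helper35.PM (hs Mat SL IsDiscrete SurfaceGroup Adapted IsQF HolDisc pressureDist)
open Pool.Agent.Helper20.QD Pool.Agent.Helper20.QP
open Pool.Agent.Helper68.QC (nq Bel InvB Intw Sol)

private theorem fam_sign {X Y : SL} (h : Y = X ∨ Y = -X)
    (h1 : (X : Mat) 0 0 * (Y : Mat) 1 1 - (X : Mat) 0 1 * (Y : Mat) 1 0 = 1) : Y = X := by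
  rcases h with h | h
  · exact h
  · exfalso
    rw [h, Matrix.SpecialLinearGroup.coe_neg, Matrix.neg_apply, Matrix.neg_apply] at h1
    have h2 := X.det_coe
    rw [Matrix.det_fin_two] at h2
    have h3 : (1 : ℂ) = -1 := by linear_combination -h1 - h2
    norm_num at h3

private theorem fam_sq {X Y : SL} (h : Y = X ∨ Y = -X) :
    ((X : Mat) 0 0 * (Y : Mat) 1 1 - (X : Mat) 0 1 * (Y : Mat) 1 0) ^ 2 = 1 := by
  have h2 := X.det_coe
  rw [Matrix.det_fin_two] at h2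
  rcases h with h | h
  · rw [h, h2, one_pow]
  · rw [h, Matrix.SpecialLinearGroup.coe_neg, Matrix.neg_apply, Matrix.neg_apply]
    have h3 : (X : Mat) 0 0 * -(X : Mat) 1 1 - (X : Mat) 0 1 * -(X : Mat) 1 0 = -1 := by
      linear_combination -h2
    rw [h3]
    norm_num

theorem hFAM (hQREP : StQREP) (hQITW : StQITW) : StFAM := by
  intro Γ _ σ ρ κ ν k hI hνm hν1 hν0 hνi
  have hBel : ∀ r : ℝ, ∀ t : ℂ, ‖t‖ ≤ r → Bel (max k r) (fun z => κ z + t * ν z) := by
    intro r t ht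
    refine ⟨hI.bel.meas.add (hνm.const_mul t), fun z => ?_⟩
    rcases le_total ‖z‖ 1 with hz | hz
    · rw [hI.in0 z hz, zero_add, norm_mul]
      calc ‖t‖ * ‖ν z‖ ≤ ‖t‖ * 1 := mul_le_mul_of_nonneg_left (hν1 z) (norm_nonneg _)
        _ ≤ max k r := by rw [mul_one]; exact ht.trans (le_max_right _ _)
    · rw [hν0 z hz, mul_zero, add_zero]
      exact (hI.bel.le z).trans (le_max_left _ _)
  have hInv : ∀ (t : ℂ) (γ : Γ), InvB (σ γ) (fun z => κ z + t * ν z) := by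
    intro t γ
    filter_upwards [hI.inv γ, hνi γ] with z h1 h2
    linear_combination h1 + t * h2
  have hnq0 : nq (fun z => κ z + 0 * ν z) = nq κ := by
    congr 1
    funext z
    rw [zero_mul, add_zero]
  have hex : ∀ r : ℝ, 0 < r ∧ r < 1 → ∃ R : ℂ → Γ →* SL, R 0 = ρ ∧
      (∀ γ i j, DifferentiableOn ℂ (fun t => (R t γ : Mat) i j) (ball 0 r)) ∧
      ∀ t ∈ ball (0 : ℂ) r, ∀ γ, Intw (σ γ) (R t γ) (nq (fun z => κ z + t * ν z)) := by
    rintro r ⟨hr0, hr1⟩
    exact hQREP (max k r) (max_lt hI.k1 hr1) 0 r (fun t z => κ z + t * ν z)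
      (fun t ht => hBel r t (mem_ball_zero_iff.1 ht).le)
      (fun z => by fun_prop) Γ _ σ ρ (fun t _ γ => hInv t γ)
      (fun γ => by
        change Intw (σ γ) (ρ γ) (nq (fun z => κ z + 0 * ν z))
        rw [hnq0]
        exact hI.int γ) hr0
  choose! S hS0 hSd hSi using hex
  have hcont : ∀ r : ℝ, 0 < r ∧ r < 1 → ∀ γ i j,
      ContinuousOn (fun t => (S r t γ : Mat) i j) (ball 0 r) :=
    fun r hr γ i j => (hSd r hr γ i j).continuousOn
  have hSS : ∀ r r' : ℝ, 0 < r ∧ r < 1 → 0 < r' ∧ r' < 1 → ∀ t : ℂ, ‖t‖ < r → ‖t‖ < r' →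
      S r' t = S r t := by
    intro r r' hr hr' t ht ht'
    apply MonoidHom.ext
    intro γ
    have hsub : ball (0 : ℂ) (min r r') ⊆ ball 0 r := ball_subset_ball (min_le_left _ _)
    have hsub' : ball (0 : ℂ) (min r r') ⊆ ball 0 r' := ball_subset_ball (min_le_right _ _)
    have hpm : ∀ u ∈ ball (0 : ℂ) (min r r'), S r' u γ = S r u γ ∨ S r' u γ = - S r u γ :=
      fun u hu => hQITW.1 (σ γ) (S r u γ) (S r' u γ) _ (hSi r hr u (hsub hu) γ)
        (hSi r' hr' u (hsub' hu) γ)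
    have htm : t ∈ ball (0 : ℂ) (min r r') := mem_ball_zero_iff.2 (lt_min ht ht')
    have h0m : (0 : ℂ) ∈ ball (0 : ℂ) (min r r') := mem_ball_self (lt_min hr.1 hr'.1)
    have hpc : IsPreconnected (ball (0 : ℂ) (min r r')) := (convex_ball _ _).isPreconnected
    have hf : ContinuousOn (fun u => (S r u γ : Mat) 0 0 * (S r' u γ : Mat) 1 1 -
        (S r u γ : Mat) 0 1 * (S r' u γ : Mat) 1 0) (ball (0 : ℂ) (min r r')) :=
      (((hcont r hr γ 0 0).mono hsub).mul ((hcont r' hr' γ 1 1).mono hsub')).sub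
        (((hcont r hr γ 0 1).mono hsub).mul ((hcont r' hr' γ 1 0).mono hsub'))
    have hone := hpc.eq_of_sq_eq hf (continuousOn_const (c := (1 : ℂ)))
      (fun u hu => by
        change ((S r u γ : Mat) 0 0 * (S r' u γ : Mat) 1 1 -
          (S r u γ : Mat) 0 1 * (S r' u γ : Mat) 1 0) ^ 2 = 1 ^ 2
        rw [fam_sq (hpm u hu), one_pow])
      (fun _ => one_ne_zero) h0m
      (by
        rw [hS0 r hr, hS0 r' hr']
        have h2 := (ρ γ).det_coe
        rw [Matrix.det_fin_two] at h2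
        exact h2)
    exact fam_sign (hpm t htm) (hone htm)
  have hmid : ∀ t : ℂ, ‖t‖ < 1 → 0 < (1 + ‖t‖) / 2 ∧ (1 + ‖t‖) / 2 < 1 := by
    intro t ht
    have := norm_nonneg t
    constructor <;> linarith
  refine ⟨fun t => S ((1 + ‖t‖) / 2) t, ?_, ?_, ?_⟩
  · exact hS0 _ (hmid 0 (by simp))
  · intro γ i j t ht
    have ht' : ‖t‖ < 1 := mem_ball_zero_iff.1 ht
    have hr := hmid t ht'
    have htr : ‖t‖ < (1 + ‖t‖) / 2 := by linarith
    have h1 : DifferentiableAt ℂ (fun u => (S ((1 + ‖t‖) / 2) u γ : Mat) i j) t :=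
      (hSd _ hr γ i j).differentiableAt (isOpen_ball.mem_nhds (mem_ball_zero_iff.2 htr))
    have h2 : (fun u => (S ((1 + ‖u‖) / 2) u γ : Mat) i j) =ᶠ[𝓝 t]
        fun u => (S ((1 + ‖t‖) / 2) u γ : Mat) i j := by
      filter_upwards [isOpen_ball.mem_nhds (mem_ball_zero_iff.2 htr)] with u hu
      have hu' : ‖u‖ < (1 + ‖t‖) / 2 := mem_ball_zero_iff.1 hu
      have hu1 : ‖u‖ < 1 := hu'.trans hr.2
      rw [hSS ((1 + ‖t‖) / 2) ((1 + ‖u‖) / 2) hr (hmid u hu1) u hu' (by linarith)]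
    exact (h1.congr_of_eventuallyEq h2).differentiableWithinAt
  · intro t ht γ
    have ht' : ‖t‖ < 1 := mem_ball_zero_iff.1 ht
    exact hSi _ (hmid t ht') t (mem_ball_zero_iff.2 (by linarith)) γ

end Pool.Agent.Helper10.QP
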