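import Pool.Agent.Helper20.QP.St2

set_option autoImplicit false

open Filter Topology Set Metric MeasureTheory
open scoped ComplexConjugate ENNReal

namespace Pool.Agent.Helper10.QP

open Pool.Agent.Helper35.PM (hs Mat SL IsDiscrete)
open Pool.Agent.Helper20.QD Pool.Agent.Helper20.QP

private abbrev PP (N : ℕ) : Type := Fin N → (ℂ × ℂ) × (ℂ × ℂ)

private noncomputable def fa (a : ℂ × ℂ) (z : ℂ) : ℝ :=
  ‖conj a.1 * z - a.2‖ ^ 2 * (1 - ‖z‖ ^ 2)⁻¹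

private noncomputable def fc (c : ℂ × ℂ) (z : ℂ) : ℝ × ℂ :=
  (1 - ‖z‖ ^ 2)⁻¹ • ((‖conj c.2 * z + conj c.1‖ ^ 2 + ‖c.1 * z + c.2‖ ^ 2 : ℝ),
    2 * (c.1 * z + c.2) * conj (conj c.2 * z + conj c.1))

private noncomputable def SC' (b : ℝ) {N : ℕ} (q : PP N × ℂ) : ℝ :=
  ∑ i, cut b (fa (q.1 i).1 q.2)

private noncomputable def FF (b : ℝ) {N : ℕ} (q : PP N × ℂ) : ℝ × ℂ :=
  ∑ i, cut b (fa (q.1 i).1 q.2) • fc (q.1 i).2 q.2

private theorem cut_c1 (b : ℝ) : ContDiff ℝ 1 (cut b) := by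
  have h1 : ∀ x : ℝ, HasDerivAt (fun x : ℝ => (max 0 x) ^ 2) (2 * max 0 x) x := by
    intro x
    rcases lt_trichotomy x 0 with h | h | h
    · have h2 : (fun x : ℝ => (max 0 x) ^ 2) =ᶠ[𝓝 x] fun _ => 0 := by
        filter_upwards [Iio_mem_nhds h] with y hy
        have hy' : y < 0 := hy
        rw [max_eq_left hy'.le]
        norm_num
      rw [max_eq_left h.le, mul_zero]
      exact (hasDerivAt_const x 0).congr_of_eventuallyEq h2
    · subst h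
      rw [max_self, mul_zero, hasDerivAt_iff_isLittleO_nhds_zero]
      have h2 : (fun h : ℝ => (max 0 (0 + h)) ^ 2 - (max 0 0) ^ 2 - h • (0 : ℝ)) =
          fun h : ℝ => (max 0 h) ^ 2 := by
        funext h
        simp
      rw [h2]
      refine Asymptotics.IsBigO.trans_isLittleO (g := fun h : ℝ => h ^ 2) ?_
        (Asymptotics.isLittleO_pow_id one_lt_two)
      refine Asymptotics.IsBigO.of_bound 1 (Eventually.of_forall fun h => ?_)
      rw [one_mul, norm_pow, norm_pow]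
      have h3 : ‖max 0 h‖ ≤ ‖h‖ := by
        rw [Real.norm_eq_abs, Real.norm_eq_abs, abs_of_nonneg (le_max_left _ _)]
        exact max_le (abs_nonneg _) (le_abs_self _)
      gcongr
    · have h2 : (fun x : ℝ => (max 0 x) ^ 2) =ᶠ[𝓝 x] fun x => x ^ 2 := by
        filter_upwards [Ioi_mem_nhds h] with y hy
        have hy' : 0 < y := hy
        rw [max_eq_right hy'.le]
      rw [max_eq_right h.le]
      have h3 := (hasDerivAt_pow 2 x).congr_of_eventuallyEq h2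
      simpa using h3
  have h2 : ContDiff ℝ 1 (fun x : ℝ => (max 0 x) ^ 2) := by
    rw [contDiff_one_iff_deriv]
    refine ⟨fun x => (h1 x).differentiableAt, ?_⟩
    have : deriv (fun x : ℝ => (max 0 x) ^ 2) = fun x => 2 * max 0 x := by
      funext x
      exact (h1 x).deriv
    rw [this]
    fun_prop
  have h3 : ContDiff ℝ 1 (fun x : ℝ => b + 1 - x) := by fun_prop
  exact h2.comp h3

private theorem cut_nonneg (b x : ℝ) : 0 ≤ cut b x := sq_nonneg _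

private theorem conj_smooth {E : Type*} [NormedAddCommGroup E] [NormedSpace ℝ E] {f : E → ℂ}
    (hf : ContDiff ℝ 1 f) : ContDiff ℝ 1 (fun x => conj (f x)) :=
  Complex.conjCLE.contDiff.comp hf

private theorem den_pos {z : ℂ} (hz : z ∈ D) : 0 < 1 - ‖z‖ ^ 2 := by
  have := mem_ball_zero_iff.1 hz
  nlinarith [norm_nonneg z]

private theorem inv_smooth {N : ℕ} :
    ContDiffOn ℝ 1 (fun q : PP N × ℂ => (1 - ‖q.2‖ ^ 2)⁻¹) {q | q.2 ∈ D} := by
  have h1 : ContDiff ℝ 1 (fun q : PP N × ℂ => ‖q.2‖ ^ 2) := contDiff_snd.norm_sq ℝ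
  exact ContDiffOn.inv (contDiff_const.sub h1).contDiffOn fun q hq => (den_pos hq).ne'

private theorem fa_smooth {N : ℕ} (i : Fin N) :
    ContDiffOn ℝ 1 (fun q : PP N × ℂ => fa (q.1 i).1 q.2) {q | q.2 ∈ D} := by
  have h1 : ContDiff ℝ 1 (fun q : PP N × ℂ => (q.1 i).1.1) := by fun_prop
  have h2 : ContDiff ℝ 1 (fun q : PP N × ℂ => (q.1 i).1.2) := by fun_prop
  have h3 : ContDiff ℝ 1 (fun q : PP N × ℂ => ‖conj (q.1 i).1.1 * q.2 - (q.1 i).1.2‖ ^ 2) :=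
    (((conj_smooth h1).mul contDiff_snd).sub h2).norm_sq ℝ
  exact h3.contDiffOn.mul inv_smooth

private theorem fc_smooth {N : ℕ} (i : Fin N) :
    ContDiffOn ℝ 1 (fun q : PP N × ℂ => fc (q.1 i).2 q.2) {q | q.2 ∈ D} := by
  have h1 : ContDiff ℝ 1 (fun q : PP N × ℂ => (q.1 i).2.1) := by fun_prop
  have h2 : ContDiff ℝ 1 (fun q : PP N × ℂ => (q.1 i).2.2) := by fun_prop
  have h3 : ContDiff ℝ 1 (fun q : PP N × ℂ => conj (q.1 i).2.2 * q.2 + conj (q.1 i).2.1) :=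
    ((conj_smooth h2).mul contDiff_snd).add (conj_smooth h1)
  have h4 : ContDiff ℝ 1 (fun q : PP N × ℂ => (q.1 i).2.1 * q.2 + (q.1 i).2.2) :=
    (h1.mul contDiff_snd).add h2
  have h5 : ContDiff ℝ 1 (fun q : PP N × ℂ =>
      ((‖conj (q.1 i).2.2 * q.2 + conj (q.1 i).2.1‖ ^ 2 +
        ‖(q.1 i).2.1 * q.2 + (q.1 i).2.2‖ ^ 2 : ℝ),
      2 * ((q.1 i).2.1 * q.2 + (q.1 i).2.2) *
        conj (conj (q.1 i).2.2 * q.2 + conj (q.1 i).2.1))) :=
    ((h3.norm_sq ℝ).add (h4.norm_sq ℝ)).prodMk ((contDiff_const.mul h4).mul (conj_smooth h3))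
  exact inv_smooth.smul h5.contDiffOn

private theorem cutfa_smooth (b : ℝ) {N : ℕ} (i : Fin N) :
    ContDiffOn ℝ 1 (fun q : PP N × ℂ => cut b (fa (q.1 i).1 q.2)) {q | q.2 ∈ D} :=
  (cut_c1 b).comp_contDiffOn (fa_smooth i)

private theorem sc_smooth (b : ℝ) {N : ℕ} :
    ContDiffOn ℝ 1 (SC' b (N := N)) {q | q.2 ∈ D} :=
  ContDiffOn.sum fun i _ => cutfa_smooth b i

private theorem ff_smooth (b : ℝ) {N : ℕ} :
    ContDiffOn ℝ 1 (FF b (N := N)) {q | q.2 ∈ D} :=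
  ContDiffOn.sum fun i _ => (cutfa_smooth b i).smul (fc_smooth i)

/-- basic identity -/
private theorem idn (c d z : ℂ) :
    ‖conj d * z + conj c‖ ^ 2 - ‖c * z + d‖ ^ 2 = (‖c‖ ^ 2 - ‖d‖ ^ 2) * (1 - ‖z‖ ^ 2) := by
  simp only [Complex.sq_norm, Complex.normSq_apply, Complex.add_re, Complex.add_im,
    Complex.mul_re, Complex.mul_im, Complex.conj_re, Complex.conj_im]
  ring

private theorem quot (n d : ℂ) (x : ℝ) (hx : 0 < x) (h : ‖d‖ ^ 2 - ‖n‖ ^ 2 = x) :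
    dl 0 (n / d) = ‖n‖ ^ 2 * x⁻¹ ∧
      Pz (n / d) = x⁻¹ • ((‖d‖ ^ 2 + ‖n‖ ^ 2 : ℝ), 2 * n * conj d) := by
  have hd2 : 0 < ‖d‖ ^ 2 := by nlinarith [sq_nonneg ‖n‖]
  have hd : d ≠ 0 := by
    rintro rfl
    simp at hd2
  have e1 : 1 - ‖n / d‖ ^ 2 = x / ‖d‖ ^ 2 := by
    rw [norm_div, div_pow, eq_div_iff hd2.ne', sub_mul, div_mul_cancel₀ _ hd2.ne', one_mul, h]
  have e2 : 1 + ‖n / d‖ ^ 2 = (‖d‖ ^ 2 + ‖n‖ ^ 2) / ‖d‖ ^ 2 := by
    rw [norm_div, div_pow, eq_div_iff hd2.ne', add_mul, div_mul_cancel₀ _ hd2.ne', one_mul]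
  constructor
  · unfold dl
    rw [zero_sub, norm_neg, e1, norm_zero, norm_div, div_pow]
    field_simp
    ring
  · unfold Pz
    rw [e1, e2]
    have hc : ((‖d‖ ^ 2 : ℝ) : ℂ) = d * conj d := by
      rw [Complex.mul_conj, Complex.normSq_eq_norm_sq]
    have hc0 : conj d ≠ 0 := by
      rw [Ne, map_eq_zero]
      exact hd
    have hx' : (x : ℂ) ≠ 0 := by exact_mod_cast hx.ne'
    refine Prod.ext ?_ ?_
    · change (‖d‖ ^ 2 + ‖n‖ ^ 2) / ‖d‖ ^ 2 / (x / ‖d‖ ^ 2) = x⁻¹ * (‖d‖ ^ 2 + ‖n‖ ^ 2)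
      field_simp
    · change 2 * (n / d) / ((x / ‖d‖ ^ 2 : ℝ) : ℂ) = x⁻¹ • (2 * n * conj d)
      rw [Complex.real_smul, Complex.ofReal_div, hc, Complex.ofReal_inv]
      field_simp

private theorem dl_eq {A : SL} (hA : IsSU A) {z : ℂ} (hz : z ∈ D) :
    dl 0 (mob A⁻¹ z) = fa ((A : Mat) 0 0, (A : Mat) 0 1) z := by
  have h1 := A.det_coe
  rw [Matrix.det_fin_two, hA.1, hA.2] at h1
  have h2 : ‖(A : Mat) 0 0‖ ^ 2 - ‖(A : Mat) 0 1‖ ^ 2 = 1 := by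
    rw [Complex.mul_conj, Complex.mul_conj, Complex.normSq_eq_norm_sq,
      Complex.normSq_eq_norm_sq] at h1
    exact_mod_cast h1
  have h3 : mob A⁻¹ z = (conj ((A : Mat) 0 0) * z - (A : Mat) 0 1) /
      (conj (-(A : Mat) 0 1) * z + conj (conj ((A : Mat) 0 0))) := by
    unfold mob
    rw [Matrix.SpecialLinearGroup.coe_inv, Matrix.adjugate_fin_two]
    simp only [Matrix.of_apply, Matrix.cons_val', Matrix.cons_val_zero, Matrix.cons_val_one,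
      Matrix.cons_val_fin_one]
    rw [hA.1, hA.2, map_neg, Complex.conj_conj]
    congr 1
  rw [h3]
  have h4 := idn (conj ((A : Mat) 0 0)) (-(A : Mat) 0 1) z
  rw [Complex.norm_conj, norm_neg, h2, one_mul, ← sub_eq_add_neg] at h4
  exact (quot _ _ _ (den_pos hz) h4).1

private theorem pz_eq {C : SL} (hC : IsSU C) {z : ℂ} (hz : z ∈ D) :
    Pz (mob C z) = fc ((C : Mat) 0 0, (C : Mat) 0 1) z := by
  have h1 := C.det_coe
  rw [Matrix.det_fin_two, hC.1, hC.2] at h1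
  have h2 : ‖(C : Mat) 0 0‖ ^ 2 - ‖(C : Mat) 0 1‖ ^ 2 = 1 := by
    rw [Complex.mul_conj, Complex.mul_conj, Complex.normSq_eq_norm_sq,
      Complex.normSq_eq_norm_sq] at h1
    exact_mod_cast h1
  have h3 : mob C z = ((C : Mat) 0 0 * z + (C : Mat) 0 1) /
      (conj ((C : Mat) 0 1) * z + conj ((C : Mat) 0 0)) := by
    unfold mob
    rw [hC.1, hC.2]
  rw [h3]
  have h4 := idn ((C : Mat) 0 0) ((C : Mat) 0 1) z
  rw [h2, one_mul] at h4
  exact (quot _ _ _ (den_pos hz) h4).2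

/-- membership in the cone -/
private theorem fc_mem {c : ℂ × ℂ} (hc : ‖c.1‖ ^ 2 - ‖c.2‖ ^ 2 = 1) {z : ℂ} (hz : z ∈ D) :
    ‖(fc c z).2‖ < (fc c z).1 := by
  have h1 := idn c.1 c.2 z
  rw [hc, one_mul] at h1
  have hp := den_pos hz
  set n : ℂ := c.1 * z + c.2 with hn
  set d : ℂ := conj c.2 * z + conj c.1 with hd
  change ‖(1 - ‖z‖ ^ 2)⁻¹ • (2 * n * conj d)‖ < (1 - ‖z‖ ^ 2)⁻¹ * (‖d‖ ^ 2 + ‖n‖ ^ 2)
  rw [norm_smul, norm_mul, norm_mul, Complex.norm_conj, Real.norm_eq_abs,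
    abs_of_pos (inv_pos.2 hp), Complex.norm_ofNat]
  apply mul_lt_mul_of_pos_left _ (inv_pos.2 hp)
  have h2 : ‖d‖ ≠ ‖n‖ := by
    intro h0
    rw [h0, sub_self] at h1
    exact hp.ne h1
  have h3 : 0 < (‖d‖ - ‖n‖) ^ 2 := by
    have := sub_ne_zero.2 h2
    positivity
  nlinarith

private theorem ff_mem (b : ℝ) {N : ℕ} (q : PP N × ℂ)
    (hq : ∀ i, ‖(q.1 i).2.1‖ ^ 2 - ‖(q.1 i).2.2‖ ^ 2 = 1) (hz : q.2 ∈ D) (hs : 0 < SC' b q) :
    ‖(FF b q).2‖ < (FF b q).1 := by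
  have e1 : (FF b q).2 = ∑ i, cut b (fa (q.1 i).1 q.2) • (fc (q.1 i).2 q.2).2 := by
    unfold FF
    rw [Prod.snd_sum]
    rfl
  have e2 : (FF b q).1 = ∑ i, cut b (fa (q.1 i).1 q.2) * (fc (q.1 i).2 q.2).1 := by
    unfold FF
    rw [Prod.fst_sum]
    rfl
  rw [e1, e2]
  refine (norm_sum_le _ _).trans_lt ?_
  have h1 : ∃ i ∈ Finset.univ, 0 < cut b (fa (q.1 i).1 q.2) := by
    by_contra hc
    push Not at hc
    have : SC' b q ≤ 0 := Finset.sum_nonpos hc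
    linarith
  obtain ⟨j, hj, hj2⟩ := h1
  apply Finset.sum_lt_sum
  · intro i _
    rw [norm_smul, Real.norm_eq_abs, abs_of_nonneg (cut_nonneg _ _)]
    exact mul_le_mul_of_nonneg_left (fc_mem (hq i) hz).le (cut_nonneg _ _)
  · refine ⟨j, hj, ?_⟩
    rw [norm_smul, Real.norm_eq_abs, abs_of_nonneg (cut_nonneg _ _)]
    exact mul_lt_mul_of_pos_left (fc_mem (hq j) hz) hj2

/-- the domain where everything is smooth -/
private def WW (b : ℝ) (N : ℕ) : Set (PP N × ℂ) :=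
  {q | q.2 ∈ D} ∩ FF b ⁻¹' {v | ‖v.2‖ < v.1}

private theorem isOpen_D2 (N : ℕ) : IsOpen {q : PP N × ℂ | q.2 ∈ D} :=
  isOpen_ball.preimage continuous_snd

private theorem ww_open (b : ℝ) (N : ℕ) : IsOpen (WW b N) := by
  apply (ff_smooth b).continuousOn.isOpen_inter_preimage (isOpen_D2 N)
  exact isOpen_lt (continuous_norm.comp continuous_snd) continuous_fst

private noncomputable def HH (b : ℝ) {N : ℕ} (q : PP N × ℂ) : ℂ := cm (FF b q)

private theorem hh_smooth (hLSA : StLSA) (b : ℝ) (N : ℕ) :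
    ContDiffOn ℝ 1 (HH b (N := N)) (WW b N) := by
  obtain ⟨-, -, -, -, h5, -⟩ := hLSA
  refine (h5.of_le ?_).comp ((ff_smooth b).mono inter_subset_left) (fun q hq => hq.2)
  exact_mod_cast le_top

private theorem hh_deriv (hLSA : StLSA) (b : ℝ) {N : ℕ} (p : PP N) (z : ℂ)
    (h : (p, z) ∈ WW b N) :
    HasFDerivAt (fun z => HH b (p, z))
      ((fderiv ℝ (HH b) (p, z)).comp (ContinuousLinearMap.inr ℝ (PP N) ℂ)) z := by
  have h1 : DifferentiableAt ℝ (HH b) (p, z) :=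
    ((hh_smooth hLSA b N).differentiableOn one_ne_zero).differentiableAt ((ww_open b N).mem_nhds h)
  exact h1.hasFDerivAt.comp z (hasFDerivAt_prodMk_right p z)

/-- the case of trivial `C` -/
private theorem hh_one (hLSA : StLSA) (b : ℝ) {N : ℕ} (p : PP N) (z : ℂ) (hz : z ∈ D)
    (hs : 0 < SC' b (p, z)) (hp : ∀ i, (p i).2 = (1, 0)) :
    fderiv ℝ (fun z => HH b (p, z)) z = ContinuousLinearMap.id ℝ ℂ := by
  have h1 : (fun z => HH b (p, z)) =ᶠ[𝓝 z] fun z => z := by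
    have h2 : ContinuousOn (SC' b (N := N)) {q | q.2 ∈ D} := (sc_smooth b).continuousOn
    have h3 : ContinuousAt (fun z => SC' b (p, z)) z := by
      have h4 : ContinuousAt (SC' b (N := N)) (p, z) :=
        h2.continuousAt ((isOpen_D2 N).mem_nhds hz)
      exact ContinuousAt.comp (f := fun z : ℂ => (p, z)) h4 (by fun_prop)
    have h4 : ∀ᶠ w in 𝓝 z, 0 < SC' b (p, w) := h3.eventually (lt_mem_nhds hs)
    filter_upwards [h4, isOpen_ball.mem_nhds hz] with w hw hwD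
    have h5 : ∀ i, fc (p i).2 w = Pz w := by
      intro i
      rw [hp i]
      unfold fc Pz
      have hx := den_pos hwD
      simp only [map_zero, zero_mul, map_one, zero_add, norm_one, one_pow, one_mul, add_zero,
        mul_one]
      refine Prod.ext ?_ ?_
      · change (1 - ‖w‖ ^ 2)⁻¹ * (1 + ‖w‖ ^ 2) = (1 + ‖w‖ ^ 2) / (1 - ‖w‖ ^ 2)
        rw [div_eq_mul_inv, mul_comm]
      · change (1 - ‖w‖ ^ 2)⁻¹ • (2 * w) = 2 * w / ((1 - ‖w‖ ^ 2 : ℝ) : ℂ)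
        rw [Complex.real_smul, div_eq_mul_inv, mul_comm, Complex.ofReal_inv]
    have h6 : FF b (p, w) = SC' b (p, w) • Pz w := by
      unfold FF SC'
      rw [Finset.sum_smul]
      exact Finset.sum_congr rfl fun i _ => by rw [h5 i]
    change cm (FF b (p, w)) = w
    rw [h6]
    exact (hLSA.1 w hwD _ hw).2
  rw [h1.fderiv_eq]
  exact fderiv_id

private def K0 (b X : ℝ) (N : ℕ) : Set (PP N × ℂ) :=
  {q | (∀ i, ‖(q.1 i).1.1‖ ^ 2 - ‖(q.1 i).1.2‖ ^ 2 = 1 ∧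
    ‖(q.1 i).2.1‖ ^ 2 - ‖(q.1 i).2.2‖ ^ 2 = 1 ∧
    2 * (‖(q.1 i).1.1‖ ^ 2 + ‖(q.1 i).1.2‖ ^ 2) ≤ X ∧
    2 * (‖(q.1 i).2.1 - 1‖ ^ 2 + ‖(q.1 i).2.2‖ ^ 2) ≤ 1) ∧ ‖q.2‖ ^ 2 ≤ b / (1 + b)}

private theorem k0_closed (b X : ℝ) (N : ℕ) : IsClosed (K0 b X N) := by
  unfold K0
  simp only [ofPred_and, ofPred_forall]
  refine IsClosed.inter (isClosed_iInter fun i => ?_) ?_
  · refine IsClosed.inter ?_ (IsClosed.inter ?_ (IsClosed.inter ?_ ?_))
    · exact isClosed_eq (by fun_prop) (by fun_prop)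
    · exact isClosed_eq (by fun_prop) (by fun_prop)
    · exact isClosed_le (by fun_prop) (by fun_prop)
    · exact isClosed_le (by fun_prop) (by fun_prop)
  · exact isClosed_le (by fun_prop) (by fun_prop)

private theorem sq_bd {x y : ℝ} (h : x ^ 2 ≤ y) : x ≤ 1 + y := by
  nlinarith [sq_nonneg (x - 1)]

private theorem k0_compact {b X : ℝ} (hb : 0 ≤ b) (N : ℕ) : IsCompact (K0 b X N) := by
  apply Metric.isCompact_of_isClosed_isBounded (k0_closed b X N)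
  rw [Metric.isBounded_iff_subset_closedBall (0 : PP N × ℂ)]
  refine ⟨4 + |X|, ?_⟩
  rintro ⟨p, z⟩ ⟨h1, h2⟩
  have hX := le_abs_self X
  have hX0 := abs_nonneg X
  rw [mem_closedBall_zero_iff, norm_prod_le_iff]
  constructor
  · rw [pi_norm_le_iff_of_nonneg (by positivity)]
    intro i
    obtain ⟨a1, a2, a3, a4⟩ := h1 i
    rw [norm_prod_le_iff, norm_prod_le_iff, norm_prod_le_iff]
    have c1 : ‖(p i).1.1‖ ≤ 1 + |X| :=
      sq_bd (by linarith [sq_nonneg ‖(p i).1.1‖, sq_nonneg ‖(p i).1.2‖])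
    have c2 : ‖(p i).1.2‖ ≤ 1 + |X| :=
      sq_bd (by linarith [sq_nonneg ‖(p i).1.1‖, sq_nonneg ‖(p i).1.2‖])
    have c3 : ‖(p i).2.1 - 1‖ ≤ 1 + 1 :=
      sq_bd (by linarith [sq_nonneg ‖(p i).2.1 - 1‖, sq_nonneg ‖(p i).2.2‖])
    have c4 : ‖(p i).2.2‖ ≤ 1 + 1 :=
      sq_bd (by linarith [sq_nonneg ‖(p i).2.1 - 1‖, sq_nonneg ‖(p i).2.2‖])
    have c5 : ‖(p i).2.1‖ ≤ 3 := by
      calc ‖(p i).2.1‖ = ‖((p i).2.1 - 1) + 1‖ := by rw [sub_add_cancel]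
        _ ≤ ‖(p i).2.1 - 1‖ + ‖(1 : ℂ)‖ := norm_add_le _ _
        _ ≤ 3 := by rw [norm_one]; linarith
    exact ⟨⟨by linarith, by linarith⟩, by linarith, by linarith⟩
  · have c1 : b / (1 + b) ≤ 1 := by
      rw [div_le_one (by linarith)]
      linarith
    have c2 : ‖z‖ ≤ 1 + 1 := sq_bd (le_trans h2 c1)
    change ‖z‖ ≤ 4 + |X|
    linarith

private theorem k0_D {b X : ℝ} (hb : 0 ≤ b) {N : ℕ} {q : PP N × ℂ} (hq : q ∈ K0 b X N) :
    q.2 ∈ D := by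
  have c1 : b / (1 + b) < 1 := by
    rw [div_lt_one (by linarith)]
    linarith
  have c2 : ‖q.2‖ ^ 2 < 1 := lt_of_le_of_lt hq.2 c1
  rw [mem_ball_zero_iff]
  nlinarith [norm_nonneg q.2]

theorem hLSC (hLSA : StLSA) : StLSC := by
  intro N b X κ hb hκ
  -- the compact set
  have hK1c : IsClosed (K0 b X N ∩ SC' b ⁻¹' Ici 1) :=
    ((sc_smooth b).continuousOn.mono fun q hq => k0_D hb hq).preimage_isClosed_of_isClosed
      (k0_closed b X N) isClosed_Ici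
  have hK1W : K0 b X N ∩ SC' b ⁻¹' Ici 1 ⊆ WW b N := by
    rintro q ⟨hq, hs⟩
    have hs' : 1 ≤ SC' b q := hs
    exact ⟨k0_D hb hq, ff_mem b q (fun i => (hq.1 i).2.1) (k0_D hb hq) (by linarith)⟩
  set Ψ : PP N × ℂ → ℝ := fun q =>
    ‖(fderiv ℝ (HH b) q).comp (ContinuousLinearMap.inr ℝ (PP N) ℂ) -
      ContinuousLinearMap.id ℝ ℂ‖ with hΨ
  have hΨc : ContinuousOn Ψ (K0 b X N ∩ SC' b ⁻¹' Ici 1) := by
    have h1 : ContinuousOn (fderiv ℝ (HH b (N := N))) (WW b N) :=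
      (hh_smooth hLSA b N).continuousOn_fderiv_of_isOpen (ww_open b N) le_rfl
    exact (((h1.clm_comp continuousOn_const).sub continuousOn_const).norm).mono hK1W
  have hK2c : IsClosed ((K0 b X N ∩ SC' b ⁻¹' Ici 1) ∩ Ψ ⁻¹' Ici κ) :=
    hΨc.preimage_isClosed_of_isClosed hK1c isClosed_Ici
  have hK2 : IsCompact ((K0 b X N ∩ SC' b ⁻¹' Ici 1) ∩ Ψ ⁻¹' Ici κ) :=
    (k0_compact hb N).of_isClosed_subset hK2c fun q hq => hq.1.1
  set δ : PP N × ℂ → ℝ := fun q => ∑ i, (‖(q.1 i).2.1 - 1‖ ^ 2 + ‖(q.1 i).2.2‖ ^ 2) with hδ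
  have hδc : Continuous δ := by
    rw [hδ]
    fun_prop
  have hδpos : ∀ q ∈ (K0 b X N ∩ SC' b ⁻¹' Ici 1) ∩ Ψ ⁻¹' Ici κ, 0 < δ q := by
    rintro ⟨p, z⟩ hq
    by_contra hc
    push Not at hc
    have h1 : ∀ i, (p i).2 = (1, 0) := by
      have h2 : ∀ i ∈ Finset.univ, 0 ≤ ‖(p i).2.1 - 1‖ ^ 2 + ‖(p i).2.2‖ ^ 2 :=
        fun i _ => by positivity
      have h3 : ∑ i, (‖(p i).2.1 - 1‖ ^ 2 + ‖(p i).2.2‖ ^ 2) = 0 :=
        le_antisymm hc (Finset.sum_nonneg h2)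
      rw [Finset.sum_eq_zero_iff_of_nonneg h2] at h3
      intro i
      have h4 := h3 i (Finset.mem_univ i)
      have h5 : ‖(p i).2.1 - 1‖ ^ 2 = 0 := by
        nlinarith [sq_nonneg ‖(p i).2.1 - 1‖, sq_nonneg ‖(p i).2.2‖]
      have h6 : ‖(p i).2.2‖ ^ 2 = 0 := by
        nlinarith [sq_nonneg ‖(p i).2.1 - 1‖, sq_nonneg ‖(p i).2.2‖]
      have h7 : (p i).2.1 = 1 := sub_eq_zero.1 (norm_eq_zero.1 (pow_eq_zero_iff two_ne_zero |>.1 h5))
      have h8 : (p i).2.2 = 0 := norm_eq_zero.1 (pow_eq_zero_iff two_ne_zero |>.1 h6)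
      exact Prod.ext h7 h8
    have hs : 1 ≤ SC' b (p, z) := hq.1.2
    have h2 := hh_one hLSA b p z (k0_D hb hq.1.1) (by linarith) h1
    have h3 := (hh_deriv hLSA b p z (hK1W hq.1)).fderiv
    have h4 : Ψ (p, z) = 0 := by
      change ‖(fderiv ℝ (HH b) (p, z)).comp (ContinuousLinearMap.inr ℝ (PP N) ℂ) -
        ContinuousLinearMap.id ℝ ℂ‖ = 0
      rw [← h3, h2, sub_self, norm_zero]
    have h5 : κ ≤ Ψ (p, z) := hq.2
    linarith
  obtain ⟨m, hm0, hm⟩ : ∃ m : ℝ, 0 < m ∧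
      ∀ q ∈ (K0 b X N ∩ SC' b ⁻¹' Ici 1) ∩ Ψ ⁻¹' Ici κ, m ≤ δ q := by
    rcases ((K0 b X N ∩ SC' b ⁻¹' Ici 1) ∩ Ψ ⁻¹' Ici κ).eq_empty_or_nonempty with he | hne
    · exact ⟨1, one_pos, fun q hq => absurd hq (by rw [he]; exact notMem_empty q)⟩
    · obtain ⟨q0, hq0, hmin⟩ := hK2.exists_isMinOn hne hδc.continuousOn
      exact ⟨δ q0, hδpos q0 hq0, fun q hq => hmin hq⟩
  refine ⟨min 1 (m / (N + 1)), lt_min one_pos (by positivity), ?_⟩
  intro A C z hAC hz hbz hsum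
  set p : PP N := fun i => (((A i : Mat) 0 0, (A i : Mat) 0 1), ((C i : Mat) 0 0, (C i : Mat) 0 1))
    with hp
  have hsu : ∀ B : SL, IsSU B → ‖(B : Mat) 0 0‖ ^ 2 - ‖(B : Mat) 0 1‖ ^ 2 = 1 := by
    intro B hB
    have h1 := B.det_coe
    rw [Matrix.det_fin_two, hB.1, hB.2, Complex.mul_conj, Complex.mul_conj,
      Complex.normSq_eq_norm_sq, Complex.normSq_eq_norm_sq] at h1
    exact_mod_cast h1
  have hhs : ∀ B : SL, IsSU B → hs (B : Mat) = 2 * (‖(B : Mat) 0 0‖ ^ 2 + ‖(B : Mat) 0 1‖ ^ 2) := by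
    intro B hB
    unfold Pool.Agent.Helper35.PM.hs
    rw [Fin.sum_univ_two, Fin.sum_univ_two, Fin.sum_univ_two, hB.1, hB.2, Complex.norm_conj,
      Complex.norm_conj]
    ring
  have hhs1 : ∀ B : SL, IsSU B → hs ((B : Mat) - 1) =
      2 * (‖(B : Mat) 0 0 - 1‖ ^ 2 + ‖(B : Mat) 0 1‖ ^ 2) := by
    intro B hB
    unfold Pool.Agent.Helper35.PM.hs
    rw [Fin.sum_univ_two, Fin.sum_univ_two, Fin.sum_univ_two]
    simp only [Matrix.sub_apply, Matrix.one_apply_eq]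
    rw [Matrix.one_apply_ne (by decide), Matrix.one_apply_ne (by decide), sub_zero, sub_zero,
      hB.1, hB.2, Complex.norm_conj]
    have h1 : conj ((B : Mat) 0 0) - 1 = conj ((B : Mat) 0 0 - 1) := by
      rw [map_sub, map_one]
    rw [h1, Complex.norm_conj]
    ring
  have hGA : ∀ w ∈ D, GA b A C w = HH b (p, w) := by
    intro w hw
    change cm (∑ i, cut b (dl 0 (mob (A i)⁻¹ w)) • Pz (mob (C i) w)) = cm (FF b (p, w))
    congr 1
    unfold FF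
    refine Finset.sum_congr rfl fun i _ => ?_
    rw [dl_eq (hAC i).1 hw, pz_eq (hAC i).2.1 hw]
  have hSC : 1 ≤ SC' b (p, z) := by
    refine hsum.trans (le_of_eq ?_)
    unfold SC'
    refine Finset.sum_congr rfl fun i _ => ?_
    rw [dl_eq (hAC i).1 hz]
  have hzb : ‖z‖ ^ 2 ≤ b / (1 + b) := by
    have h1 := den_pos hz
    unfold dl at hbz
    rw [zero_sub, norm_neg, norm_zero, div_le_iff₀ (by nlinarith)] at hbz
    rw [le_div_iff₀ (by linarith)]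
    nlinarith
  have hq0 : (p, z) ∈ K0 b X N ∩ SC' b ⁻¹' Ici 1 := by
    refine ⟨⟨fun i => ⟨hsu _ (hAC i).1, hsu _ (hAC i).2.1, ?_, ?_⟩, hzb⟩, hSC⟩
    · have := (hAC i).2.2.1
      rw [hhs _ (hAC i).1] at this
      exact this
    · have := ((hAC i).2.2.2).trans (min_le_left _ _)
      rw [hhs1 _ (hAC i).2.1] at this
      exact this
  have hδ0 : δ (p, z) < m := by
    have h1 : ∀ i ∈ (Finset.univ : Finset (Fin N)),
        ‖(p i).2.1 - 1‖ ^ 2 + ‖(p i).2.2‖ ^ 2 ≤ m / (N + 1) := by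
      intro i _
      have := ((hAC i).2.2.2).trans (min_le_right _ _)
      rw [hhs1 _ (hAC i).2.1] at this
      change ‖(C i : Mat) 0 0 - 1‖ ^ 2 + ‖(C i : Mat) 0 1‖ ^ 2 ≤ m / (N + 1)
      nlinarith [sq_nonneg ‖(C i : Mat) 0 0 - 1‖, sq_nonneg ‖(C i : Mat) 0 1‖]
    have h2 := Finset.sum_le_sum h1
    change ∑ i, (‖(p i).2.1 - 1‖ ^ 2 + ‖(p i).2.2‖ ^ 2) < m
    refine h2.trans_lt ?_
    rw [Finset.sum_const, Finset.card_univ, Fintype.card_fin, nsmul_eq_mul, mul_div_assoc',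
      div_lt_iff₀ (by positivity)]
    nlinarith
  have hΨ0 : Ψ (p, z) < κ := by
    by_contra hc
    push Not at hc
    have := hm (p, z) ⟨hq0, hc⟩
    linarith
  have hev : GA b A C =ᶠ[𝓝 z] fun w => HH b (p, w) := by
    filter_upwards [isOpen_ball.mem_nhds hz] with w hw using hGA w hw
  refine ⟨?_, ?_, ?_⟩
  · have h1 : ContDiffAt ℝ 1 (HH b (N := N)) (p, z) :=
      (hh_smooth hLSA b N).contDiffAt ((ww_open b N).mem_nhds (hK1W hq0))
    have h2 : ContDiffAt ℝ 1 (fun w => HH b (p, w)) z :=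
      ContDiffAt.comp (f := fun w : ℂ => (p, w)) z h1 (contDiffAt_const.prodMk contDiffAt_id)
    exact h2.congr_of_eventuallyEq hev
  · rw [hGA z hz]
    exact (hLSA.2.2.1 (FF b (p, z)) (hK1W hq0).2).1
  · rw [hev.fderiv_eq, (hh_deriv hLSA b p z (hK1W hq0)).fderiv]
    exact hΨ0.le

end Pool.Agent.Helper10.QP
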